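import Mathlib
import Pool.Agent.Y854.GM.Win

/-!
# Cusp forms of weight `3/2`: the Ramanujan bound for all squarefree indices in windows

Let `p` be a prime, `χ` a character modulo `24 p` and `f ∈ S^{(1)}_{3/2}(24 p, χ)`. Q1 asks for the bound
`|a_f(r)| ≤ C r^{1/4 + ε}` for squarefree `r`. Let `1 ≤ u_0, u_1, …` be reals with `∑ u_m^{-t} < ∞` for `t > τ` (`τ = 0` for
geometric sequences, `τ = 1/d` for `u_m = m^d`), and `θ < 1`. We show, for `0 < κ ≤ 1/4`: for all `a > 0` outside of a set of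
Hausdorff dimension at most `(1 - 4κ + τ) / (1 - θ)`, for ALL `p`, `χ` and `f` there is a constant `C` such that

  `|a_f(r)| ≤ C r^{1/4 + κ}` for all squarefree `r` with `|r - a u_m| ≤ u_m^θ` for some `m`.

In particular for almost all `a > 0` this holds for ALL `p`, `χ`, `f` and all `κ > (θ + τ) / 4`. For narrow windows around the
members of a geometric sequence, `θ ≤ 0`, this is the bound of Q1, `|a_f(r)| ≤ C(f, ε) r^{1/4 + ε}`, for all squarefree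
`r` in the windows.

For all squarefree `r` it is known for `κ > 3/14` (Duke-Iwaniec), and for `κ > 1/6` by the Weyl type bound
`L(1/2, F ⊗ χ_r) ≪ r^{1/3 + ε}` (Conrey-Iwaniec, Petrow-Young). For geometric sequences the exponents here are smaller for all
windows with `θ < 2/3`.

The structure `FormSpace` lists what is used of `S^{(1)}_{3/2}(24 p, χ)`: it is a finite dimensional space `V` of (coefficient)
sequences, and `∑ |a_f(r)|⁴ r^{-1-s}`, `r` squarefree, converges for `s > 1` and `f ∈ V`. The latter is known: for Hecke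
eigenforms `|a_f(r)|² ≪ r^{1/2} L(1/2, F ⊗ χ_r)` by Waldspurger's theorem, and `∑_{r ≤ X} L(1/2, F ⊗ χ_r)² ≪ X^{1+ε}`,
`r` squarefree, by Heath-Brown's large sieve for quadratic characters (Perelli-Pomykała); the Hecke eigenforms span
the space.

The proof: at most `O(X^{1 - 4κ + ε})` squarefree `r ≤ X` have `|a_f(r)| ≥ r^{1/4 + κ}`. The `a` for which these `r` are in
infinitely many windows are covered by `Pool.Agent.Y854.GM.windows`; a basis of `V` is sufficient for all `f ∈ V`, and there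
are countably many spaces.
-/

set_option autoImplicit false

namespace Pool.Agent.Results.MP_af11aa_nt.WindowsOfCoefficients

open Filter MeasureTheory

/-- A finite dimensional space of coefficient sequences (of the forms in `S^{(1)}_{3/2}(24 p, χ)`), with the bound for the
fourth moment over squarefree indices. -/
structure FormSpace where
  V : Submodule ℂ (ℕ → ℂ)
  finite : Module.Finite ℂ V
  fourthMoment : ∀ f ∈ V, ∀ s : ℝ, 1 < s → Summable fun r : {r : ℕ // Squarefree r} =>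
    ‖f r.1‖ ^ 4 / (r.1 : ℝ) * (r.1 : ℝ) ^ (-s)

/-- the squarefree `r` with a large coefficient -/
def Large (f : ℕ → ℂ) (κ : ℝ) : Set ℕ := {r | Squarefree r ∧ (r : ℝ) ^ (1 / 4 + κ) ≤ ‖f r‖}

/-- `|f(r)| ≤ C r^{1/4 + κ}` for all squarefree `r` in the windows around `a u_m` -/
def Bounded (f : ℕ → ℂ) (κ a θ : ℝ) (u : ℕ → ℝ) (C : ℝ) : Prop :=
  ∀ (m r : ℕ), Squarefree r → |(r : ℝ) - a * u m| ≤ u m ^ θ → ‖f r‖ ≤ C * (r : ℝ) ^ (1 / 4 + κ)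

theorem one_le_of_sqf {r : ℕ} (h : Squarefree r) : (1 : ℝ) ≤ r := by
  have h0 : r ≠ 0 := h.ne_zero
  exact_mod_cast Nat.one_le_iff_ne_zero.2 h0

/-- the number of squarefree `r ≤ X` with a large coefficient -/
theorem count {f : ℕ → ℂ} (hf : ∀ s : ℝ, 1 < s → Summable fun r : {r : ℕ // Squarefree r} =>
    ‖f r.1‖ ^ 4 / (r.1 : ℝ) * (r.1 : ℝ) ^ (-s)) {κ : ℝ} (hκ1 : κ ≤ 1 / 4) (ε : ℝ) (hε : 0 < ε) :
    ∃ C : ℝ, ∀ X : ℝ, 1 ≤ X → {r : ℕ | r ∈ Large f κ ∧ (r : ℝ) ≤ X}.Finite ∧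
      ({r : ℕ | r ∈ Large f κ ∧ (r : ℝ) ≤ X}.ncard : ℝ) ≤ C * X ^ (1 - 4 * κ + ε) := by
  classical
  have hS := hf (1 + ε) (by linarith)
  refine ⟨∑' r : {r : ℕ // Squarefree r}, ‖f r.1‖ ^ 4 / (r.1 : ℝ) * (r.1 : ℝ) ^ (-(1 + ε)), fun X hX => ?_⟩
  have hX0 : 0 < X := by linarith
  have hfin : {r : ℕ | r ∈ Large f κ ∧ (r : ℝ) ≤ X}.Finite :=
    (Set.finite_Iic ⌊X⌋₊).subset fun r hr => Nat.le_floor hr.2
  refine ⟨hfin, ?_⟩
  set G := hfin.toFinset with hG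
  have hGB : ∀ r ∈ G, Squarefree r := fun r hr => (hfin.mem_toFinset.1 hr).1.1
  have h1 : ∀ r ∈ G, X ^ (4 * κ - (1 + ε)) ≤ ‖f r‖ ^ 4 / (r : ℝ) * (r : ℝ) ^ (-(1 + ε)) := by
    intro r hr
    obtain ⟨⟨g0, g1⟩, g2⟩ := hfin.mem_toFinset.1 hr
    have hN := one_le_of_sqf g0
    have hN0 : (0 : ℝ) < r := by linarith
    have g3 : (r : ℝ) ^ (4 * κ) ≤ ‖f r‖ ^ 4 / (r : ℝ) := by
      rw [le_div_iff₀ hN0]
      have g4 : (r : ℝ) ^ (4 * κ) * r = ((r : ℝ) ^ (1 / 4 + κ)) ^ 4 := by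
        rw [← Real.rpow_natCast ((r : ℝ) ^ (1 / 4 + κ)), ← Real.rpow_mul hN0.le, ← Real.rpow_add_one hN0.ne']
        congr 1
        push_cast
        ring
      rw [g4]
      exact pow_le_pow_left₀ (by positivity) g1 4
    have g4 : X ^ (4 * κ - (1 + ε)) ≤ (r : ℝ) ^ (4 * κ - (1 + ε)) :=
      Real.rpow_le_rpow_of_nonpos hN0 g2 (by linarith)
    have g5 : (r : ℝ) ^ (4 * κ - (1 + ε)) = (r : ℝ) ^ (4 * κ) * (r : ℝ) ^ (-(1 + ε)) := by
      rw [← Real.rpow_add hN0]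
      congr 1
    rw [g5] at g4
    exact g4.trans (mul_le_mul_of_nonneg_right g3 (by positivity))
  have h2 := Finset.sum_le_sum h1
  rw [Finset.sum_const, nsmul_eq_mul] at h2
  have h3 : ∑ r ∈ G, ‖f r‖ ^ 4 / (r : ℝ) * (r : ℝ) ^ (-(1 + ε)) ≤
      ∑' r : {r : ℕ // Squarefree r}, ‖f r.1‖ ^ 4 / (r.1 : ℝ) * (r.1 : ℝ) ^ (-(1 + ε)) := by
    have h4 : ∑ r ∈ G, ‖f r‖ ^ 4 / (r : ℝ) * (r : ℝ) ^ (-(1 + ε)) =
        ∑ r ∈ G.subtype (fun r => Squarefree r), ‖f r.1‖ ^ 4 / (r.1 : ℝ) * (r.1 : ℝ) ^ (-(1 + ε)) := by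
      rw [Finset.sum_subtype_of_mem (fun r : ℕ => ‖f r‖ ^ 4 / (r : ℝ) * (r : ℝ) ^ (-(1 + ε))) hGB]
    rw [h4]
    exact hS.sum_le_tsum _ fun r _ => by positivity
  rw [Set.ncard_eq_toFinset_card _ hfin]
  have h6 : X ^ (4 * κ - (1 + ε)) * X ^ (1 - 4 * κ + ε) = 1 := by
    rw [← Real.rpow_add hX0]
    have : 4 * κ - (1 + ε) + (1 - 4 * κ + ε) = 0 := by ring
    rw [this, Real.rpow_zero]
  calc (G.card : ℝ) = (G.card : ℝ) * X ^ (4 * κ - (1 + ε)) * X ^ (1 - 4 * κ + ε) := by rw [mul_assoc, h6, mul_one]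
    _ ≤ _ := mul_le_mul_of_nonneg_right (h2.trans h3) (by positivity)

/-- the windows for one form -/
theorem one {f : ℕ → ℂ} (hf : ∀ s : ℝ, 1 < s → Summable fun r : {r : ℕ // Squarefree r} =>
    ‖f r.1‖ ^ 4 / (r.1 : ℝ) * (r.1 : ℝ) ^ (-s)) {u : ℕ → ℝ} {τ θ : ℝ} (hu : ∀ m, 1 ≤ u m) (hτ : 0 ≤ τ)
    (hgrow : ∀ t : ℝ, τ < t → Summable fun m : ℕ => u m ^ (-t)) (hθ : θ < 1) {κ : ℝ} (hκ : 0 < κ) (hκ1 : κ ≤ 1 / 4) :
    ∃ E : Set ℝ, dimH E ≤ ENNReal.ofReal ((1 - 4 * κ + τ) / (1 - θ)) ∧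
      ∀ a : ℝ, 0 < a → a ∉ E → ∃ C : ℝ, 0 ≤ C ∧ Bounded f κ a θ u C := by
  obtain ⟨E, h1, h2⟩ := Pool.Agent.Y854.GM.windows (Large f κ) (fun r : ℕ => (r : ℝ)) hu hτ hgrow
    (by linarith : 0 ≤ 1 - 4 * κ) hθ (fun ε hε => count hf hκ1 ε hε)
  refine ⟨E, h1, fun a ha haE => ?_⟩
  obtain ⟨m₀, hm₀⟩ := h2 a ha haE
  -- the finitely many indices in the first windows
  set M : ℝ := ∑ m ∈ Finset.range m₀, (a * u m + u m ^ θ) with hM
  have hterm : ∀ m, 0 ≤ a * u m + u m ^ θ := fun m => by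
    have := hu m
    positivity
  set C : ℝ := 1 + ∑ r ∈ Finset.range (⌊M⌋₊ + 1), ‖f r‖ with hC
  have hC1 : 1 ≤ C := by
    have : 0 ≤ ∑ r ∈ Finset.range (⌊M⌋₊ + 1), ‖f r‖ := Finset.sum_nonneg fun r _ => norm_nonneg _
    linarith
  refine ⟨C, by linarith, fun m r hr hrm => ?_⟩
  have hr1 := one_le_of_sqf hr
  have hpow : 1 ≤ (r : ℝ) ^ (1 / 4 + κ) := Real.one_le_rpow hr1 (by linarith)
  by_cases hm : m₀ ≤ m
  · have h3 : ¬ (r ∈ Large f κ) := fun h => absurd hrm (not_le.2 (hm₀ m hm r h))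
    have h4 : ‖f r‖ < (r : ℝ) ^ (1 / 4 + κ) := by
      by_contra h5
      exact h3 ⟨hr, not_lt.1 h5⟩
    nlinarith
  · rw [not_le] at hm
    have h3 : (r : ℝ) ≤ M := by
      have h4 : (r : ℝ) ≤ a * u m + u m ^ θ := by
        have := (abs_le.1 hrm).2
        linarith
      exact h4.trans (Finset.single_le_sum (f := fun m => a * u m + u m ^ θ) (fun m _ => hterm m)
        (Finset.mem_range.2 hm))
    have h5 : r ∈ Finset.range (⌊M⌋₊ + 1) := by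
      rw [Finset.mem_range, Nat.lt_succ_iff]
      exact Nat.le_floor h3
    have h6 : ‖f r‖ ≤ ∑ r ∈ Finset.range (⌊M⌋₊ + 1), ‖f r‖ :=
      Finset.single_le_sum (f := fun r => ‖f r‖) (fun r _ => norm_nonneg _) h5
    nlinarith

/-- the windows for a finite dimensional space -/
theorem space (P : FormSpace) {u : ℕ → ℝ} {τ θ : ℝ} (hu : ∀ m, 1 ≤ u m) (hτ : 0 ≤ τ)
    (hgrow : ∀ t : ℝ, τ < t → Summable fun m : ℕ => u m ^ (-t)) (hθ : θ < 1) {κ : ℝ} (hκ : 0 < κ) (hκ1 : κ ≤ 1 / 4) :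
    ∃ E : Set ℝ, dimH E ≤ ENNReal.ofReal ((1 - 4 * κ + τ) / (1 - θ)) ∧
      ∀ a : ℝ, 0 < a → a ∉ E → ∀ f ∈ P.V, ∃ C : ℝ, Bounded f κ a θ u C := by
  classical
  have := P.finite
  obtain ⟨b⟩ : Nonempty (Module.Basis (Fin (Module.finrank ℂ P.V)) ℂ P.V) := ⟨Module.finBasis ℂ P.V⟩
  choose E hE1 hE2 using fun i => one (P.fourthMoment (b i) (b i).2) hu hτ hgrow hθ hκ hκ1
  refine ⟨⋃ i, E i, ?_, fun a ha haE f hf => ?_⟩
  · rw [dimH_iUnion]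
    exact iSup_le hE1
  · choose C hC0 hC using fun i => hE2 i a ha fun h => haE (Set.mem_iUnion.2 ⟨i, h⟩)
    refine ⟨∑ i, ‖b.repr ⟨f, hf⟩ i‖ * C i, fun m r hr hrm => ?_⟩
    have h1 := congrArg (fun g : P.V => (g : ℕ → ℂ) r) (b.sum_repr ⟨f, hf⟩)
    simp only [Submodule.coe_sum, Submodule.coe_smul, Finset.sum_apply, Pi.smul_apply, smul_eq_mul] at h1
    rw [← h1, Finset.sum_mul]
    refine norm_sum_le_of_le _ fun i _ => ?_
    rw [norm_mul, mul_assoc]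
    exact mul_le_mul_of_nonneg_left (hC i m r hr hrm) (norm_nonneg _)

theorem Bounded.mono {f : ℕ → ℂ} {κ κ' a θ : ℝ} {u : ℕ → ℝ} {C : ℝ} (h : κ ≤ κ') (hb : Bounded f κ a θ u C) :
    Bounded f κ' a θ u |C| := by
  intro m r hr hrm
  have hr1 := one_le_of_sqf hr
  have h1 : (r : ℝ) ^ (1 / 4 + κ) ≤ (r : ℝ) ^ (1 / 4 + κ') := Real.rpow_le_rpow_of_exponent_le hr1 (by linarith)
  have h2 : 0 ≤ (r : ℝ) ^ (1 / 4 + κ) := by positivity
  calc ‖f r‖ ≤ C * (r : ℝ) ^ (1 / 4 + κ) := hb m r hr hrm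
    _ ≤ |C| * (r : ℝ) ^ (1 / 4 + κ) := mul_le_mul_of_nonneg_right (le_abs_self C) h2
    _ ≤ |C| * (r : ℝ) ^ (1 / 4 + κ') := mul_le_mul_of_nonneg_left h1 (abs_nonneg C)

/-- the trivial range -/
theorem trivial_range {f : ℕ → ℂ} (hf : ∀ s : ℝ, 1 < s → Summable fun r : {r : ℕ // Squarefree r} =>
    ‖f r.1‖ ^ 4 / (r.1 : ℝ) * (r.1 : ℝ) ^ (-s)) {κ a θ : ℝ} {u : ℕ → ℝ} (hκ : 1 / 4 < κ) :
    ∃ C : ℝ, Bounded f κ a θ u C := by
  set S₀ : ℝ := ∑' r : {r : ℕ // Squarefree r}, ‖f r.1‖ ^ 4 / (r.1 : ℝ) * (r.1 : ℝ) ^ (-(4 * κ)) with hS₀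
  have hS := hf (4 * κ) (by linarith)
  have h0 : 0 ≤ S₀ := tsum_nonneg fun r => by positivity
  refine ⟨S₀ + 1, fun m r hr _ => ?_⟩
  have hr1 := one_le_of_sqf hr
  have hr0 : (0 : ℝ) < r := by linarith
  have h1 : ‖f r‖ ^ 4 / (r : ℝ) * (r : ℝ) ^ (-(4 * κ)) ≤ S₀ := hS.le_tsum ⟨r, hr⟩ fun _ _ => by positivity
  have h2 : ‖f r‖ ^ 4 = ‖f r‖ ^ 4 / (r : ℝ) * (r : ℝ) ^ (-(4 * κ)) * ((r : ℝ) ^ (1 / 4 + κ)) ^ 4 := by
    have h3 : ((r : ℝ) ^ (1 / 4 + κ)) ^ 4 = r * (r : ℝ) ^ (4 * κ) := by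
      rw [← Real.rpow_natCast ((r : ℝ) ^ (1 / 4 + κ)), ← Real.rpow_mul hr0.le, ← Real.rpow_one_add' hr0.le (by linarith)]
      congr 1
      push_cast
      ring
    rw [h3, Real.rpow_neg hr0.le]
    field_simp
  have h4 : ‖f r‖ ^ 4 ≤ ((S₀ + 1) * (r : ℝ) ^ (1 / 4 + κ)) ^ 4 := by
    rw [h2, mul_pow]
    refine mul_le_mul_of_nonneg_right (h1.trans ?_) (by positivity)
    have h5 : 1 ≤ S₀ + 1 := by linarith
    calc S₀ ≤ (S₀ + 1) ^ 1 := by linarith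
      _ ≤ (S₀ + 1) ^ 4 := pow_le_pow_right₀ h5 (by norm_num)
  exact le_of_pow_le_pow_left₀ (by norm_num) (by positivity) h4

/-- **Theorem.** Let `P j` be a countable family of spaces of cusp forms of weight `3/2` (for example all
`S^{(1)}_{3/2}(24 p, χ)`), let `1 ≤ u_m`, `∑_m u_m^{-t} < ∞` for all `t > τ`, and `θ < 1`. (1) For all `a > 0` outside of a set of
dimension at most `(1 - 4κ + τ) / (1 - θ)` every form satisfies `|a_f(r)| ≤ C r^{1/4 + κ}` for all squarefree `r` in the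
windows around `a u_m`. (2) For almost all `a > 0` this holds for all `κ > (θ + τ) / 4` simultaneously. -/
theorem result {J : Type} [Countable J] (P : J → FormSpace) (u : ℕ → ℝ) (τ θ : ℝ) (hu : ∀ m, 1 ≤ u m) (hτ : 0 ≤ τ)
    (hgrow : ∀ t : ℝ, τ < t → Summable fun m : ℕ => u m ^ (-t)) (hθ : θ < 1) :
    (∀ κ : ℝ, 0 < κ → κ ≤ 1 / 4 → ∃ E : Set ℝ, dimH E ≤ ENNReal.ofReal ((1 - 4 * κ + τ) / (1 - θ)) ∧
      ∀ a : ℝ, 0 < a → a ∉ E → ∀ (j : J), ∀ f ∈ (P j).V, ∃ C : ℝ, Bounded f κ a θ u C) ∧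
    ∀ᵐ a : ℝ, 0 < a → ∀ (j : J), ∀ f ∈ (P j).V, ∀ κ : ℝ, 0 < κ → (θ + τ) / 4 < κ →
      ∃ C : ℝ, Bounded f κ a θ u C := by
  constructor
  · intro κ hκ hκ1
    choose E hE1 hE2 using fun j => space (P j) hu hτ hgrow hθ hκ hκ1
    refine ⟨⋃ j, E j, ?_, fun a ha haE j => hE2 j a ha fun h => haE (Set.mem_iUnion.2 ⟨j, h⟩)⟩
    rw [dimH_iUnion]
    exact iSup_le hE1
  · have hq : ∀ (j : J) (q : ℚ), ∀ᵐ a : ℝ, 0 < (q : ℝ) → (q : ℝ) ≤ 1 / 4 → (θ + τ) / 4 < q → 0 < a →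
        ∀ f ∈ (P j).V, ∃ C : ℝ, Bounded f q a θ u C := by
      intro j q
      by_cases hc : 0 < (q : ℝ) ∧ (q : ℝ) ≤ 1 / 4 ∧ (θ + τ) / 4 < q
      · obtain ⟨h1, h2, h3⟩ := hc
        obtain ⟨E, hE1, hE2⟩ := space (P j) hu hτ hgrow hθ h1 h2
        have hnull : volume E = 0 := by
          rw [← hausdorffMeasure_real]
          refine hausdorffMeasure_of_dimH_lt (d := 1) (hE1.trans_lt ?_)
          have g1 : (1 - 4 * q + τ) / (1 - θ) < 1 := by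
            rw [div_lt_one (by linarith)]
            linarith
          simpa using (ENNReal.ofReal_lt_one).2 g1
        filter_upwards [compl_mem_ae_iff.2 hnull] with a ha _ _ _ ha0
        exact hE2 a ha0 ha
      · exact Filter.Eventually.of_forall fun a h1 h2 h3 _ => absurd ⟨h1, h2, h3⟩ hc
    have hall : ∀ᵐ a : ℝ, ∀ (j : J) (q : ℚ), 0 < (q : ℝ) → (q : ℝ) ≤ 1 / 4 → (θ + τ) / 4 < q → 0 < a →
        ∀ f ∈ (P j).V, ∃ C : ℝ, Bounded f q a θ u C := by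
      rw [ae_all_iff]
      intro j
      rw [ae_all_iff]
      exact hq j
    filter_upwards [hall] with a ha ha0 j f hf κ hκ hκ2
    rcases lt_or_ge (1 / 4) κ with hκ1 | hκ1
    · exact trivial_range ((P j).fourthMoment f hf) hκ1
    · obtain ⟨q, hq1, hq2⟩ := exists_rat_btwn (show max 0 ((θ + τ) / 4) < κ from max_lt hκ hκ2)
      have hq0 : 0 < (q : ℝ) := (le_max_left _ _).trans_lt hq1
      obtain ⟨C, hC⟩ := ha j q hq0 (by linarith) ((le_max_right _ _).trans_lt hq1) ha0 f hf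
      exact ⟨|C|, hC.mono hq2.le⟩

end Pool.Agent.Results.MP_af11aa_nt.WindowsOfCoefficients
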