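import Mathlib
import Pool.Agent.H223.PS.Engine
import Pool.Agent.Results.MP_af11aa_nt.WindowsOfCoefficients

/-!
# Cusp forms of weight `3/2`: the Ramanujan bound for all squarefree indices in residue classes

Let `ℓ` be a prime and `σ > 0`. For `0 < κ ≤ 1/4`, for all `ℓ`-adic integers `α` outside of a set of Hausdorff dimension at most
`(1 - 4κ) / σ`, ALL forms `f` of (all) the spaces `S^{(1)}_{3/2}(24 p, χ)` satisfy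

  `|a_f(r)| ≤ C r^{1/4 + κ}` for all `T ≥ 1` and all squarefree `r ≤ T` with `|r - α|_ℓ ≤ T^{-σ}`,

that is, for all squarefree `r ≤ T` in the residue class of `α` modulo the power of `ℓ` of order `T^σ`. For each `d > 0` there
is one exceptional set of dimension at most `d` for all `σ` and all `κ > (1 - d σ) / 4` at once.
-/

set_option autoImplicit false

namespace Pool.Agent.Results.MP_af11aa_nt.IndicesInResidueClasses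

open Filter MeasureTheory
open WindowsOfCoefficients (FormSpace Large count one_le_of_sqf)

/-- `|f(r)| ≤ C r^{1/4 + κ}` for all `T ≥ 1` and all squarefree `r ≤ T` with `|r - α|_ℓ ≤ T^{-σ}` -/
def Bounded (ℓ : ℕ) [Fact ℓ.Prime] (f : ℕ → ℂ) (κ σ : ℝ) (α : ℤ_[ℓ]) (C : ℝ) : Prop :=
  ∀ (T : ℝ) (r : ℕ), 1 ≤ T → Squarefree r → (r : ℝ) ≤ T → ‖(r : ℤ_[ℓ]) - α‖ ≤ T ^ (-σ) →
    ‖f r‖ ≤ C * (r : ℝ) ^ (1 / 4 + κ)

theorem one (ℓ : ℕ) [Fact ℓ.Prime] {f : ℕ → ℂ} (hf : ∀ s : ℝ, 1 < s → Summable fun r : {r : ℕ // Squarefree r} =>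
    ‖f r.1‖ ^ 4 / (r.1 : ℝ) * (r.1 : ℝ) ^ (-s)) {σ : ℝ} (hσ : 0 < σ) {κ : ℝ} (hκ : 0 < κ) (hκ1 : κ ≤ 1 / 4) :
    ∃ E : Set ℤ_[ℓ], dimH E ≤ ENNReal.ofReal ((1 - 4 * κ) / σ) ∧
      ∀ α ∉ E, ∃ C : ℝ, 0 ≤ C ∧ Bounded ℓ f κ σ α C := by
  obtain ⟨E, h1, h2⟩ := Pool.Agent.H223.PS.padic_nat ℓ (fun _ => Large f κ) (by linarith : 0 ≤ 1 - 4 * κ)
    (fun _ ε hε => count hf hκ1 ε hε) hσ
  refine ⟨E, h1, fun α hα => ?_⟩
  obtain ⟨T₀, hT₀⟩ := h2 α hα 0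
  set C : ℝ := 1 + ∑ r ∈ Finset.range (⌊T₀⌋₊ + 1), ‖f r‖ with hC
  have hC1 : 1 ≤ C := by
    have : 0 ≤ ∑ r ∈ Finset.range (⌊T₀⌋₊ + 1), ‖f r‖ := Finset.sum_nonneg fun r _ => norm_nonneg _
    linarith
  refine ⟨C, by linarith, fun T r hT hr hrT hrα => ?_⟩
  have hr1 := one_le_of_sqf hr
  have hpow : 1 ≤ (r : ℝ) ^ (1 / 4 + κ) := Real.one_le_rpow hr1 (by linarith)
  rcases le_or_gt T₀ T with hTT | hTT
  · have h3 : ¬ (r ∈ Large f κ) := hT₀ T hTT r hrT hrα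
    have h4 : ‖f r‖ < (r : ℝ) ^ (1 / 4 + κ) := by
      by_contra h5
      exact h3 ⟨hr, not_lt.1 h5⟩
    nlinarith
  · have h5 : r ∈ Finset.range (⌊T₀⌋₊ + 1) := by
      rw [Finset.mem_range, Nat.lt_succ_iff]
      exact Nat.le_floor (hrT.trans hTT.le)
    have h6 : ‖f r‖ ≤ ∑ r ∈ Finset.range (⌊T₀⌋₊ + 1), ‖f r‖ :=
      Finset.single_le_sum (f := fun r => ‖f r‖) (fun r _ => norm_nonneg _) h5
    nlinarith

theorem space (ℓ : ℕ) [Fact ℓ.Prime] (P : FormSpace) {σ : ℝ} (hσ : 0 < σ) {κ : ℝ} (hκ : 0 < κ) (hκ1 : κ ≤ 1 / 4) :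
    ∃ E : Set ℤ_[ℓ], dimH E ≤ ENNReal.ofReal ((1 - 4 * κ) / σ) ∧
      ∀ α ∉ E, ∀ f ∈ P.V, ∃ C : ℝ, Bounded ℓ f κ σ α C := by
  classical
  have := P.finite
  obtain ⟨b⟩ : Nonempty (Module.Basis (Fin (Module.finrank ℂ P.V)) ℂ P.V) := ⟨Module.finBasis ℂ P.V⟩
  choose E hE1 hE2 using fun i => one ℓ (P.fourthMoment (b i) (b i).2) hσ hκ hκ1
  refine ⟨⋃ i, E i, ?_, fun α hα f hf => ?_⟩
  · rw [dimH_iUnion]
    exact iSup_le hE1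
  · choose C hC0 hC using fun i => hE2 i α fun h => hα (Set.mem_iUnion.2 ⟨i, h⟩)
    refine ⟨∑ i, ‖b.repr ⟨f, hf⟩ i‖ * C i, fun T r hT hr hrT hrα => ?_⟩
    have h1 := congrArg (fun g : P.V => (g : ℕ → ℂ) r) (b.sum_repr ⟨f, hf⟩)
    simp only [Submodule.coe_sum, Submodule.coe_smul, Finset.sum_apply, Pi.smul_apply, smul_eq_mul] at h1
    rw [← h1, Finset.sum_mul]
    refine norm_sum_le_of_le _ fun i _ => ?_
    rw [norm_mul, mul_assoc]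
    exact mul_le_mul_of_nonneg_left (hC i T r hT hr hrT hrα) (norm_nonneg _)

theorem Bounded.mono {ℓ : ℕ} [Fact ℓ.Prime] {f : ℕ → ℂ} {κ κ' σ : ℝ} {α : ℤ_[ℓ]} {C : ℝ} (h : κ ≤ κ')
    (hb : Bounded ℓ f κ σ α C) : Bounded ℓ f κ' σ α |C| := by
  intro T r hT hr hrT hrα
  have hr1 := one_le_of_sqf hr
  have h1 : (r : ℝ) ^ (1 / 4 + κ) ≤ (r : ℝ) ^ (1 / 4 + κ') := Real.rpow_le_rpow_of_exponent_le hr1 (by linarith)
  have h2 : 0 ≤ (r : ℝ) ^ (1 / 4 + κ) := by positivity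
  calc ‖f r‖ ≤ C * (r : ℝ) ^ (1 / 4 + κ) := hb T r hT hr hrT hrα
    _ ≤ |C| * (r : ℝ) ^ (1 / 4 + κ) := mul_le_mul_of_nonneg_right (le_abs_self C) h2
    _ ≤ |C| * (r : ℝ) ^ (1 / 4 + κ') := mul_le_mul_of_nonneg_left h1 (abs_nonneg C)

/-- a larger `σ` gives a weaker condition -/
theorem Bounded.mono_sigma {ℓ : ℕ} [Fact ℓ.Prime] {f : ℕ → ℂ} {κ σ σ' : ℝ} {α : ℤ_[ℓ]} {C : ℝ} (h : σ ≤ σ')
    (hb : Bounded ℓ f κ σ α C) : Bounded ℓ f κ σ' α C := by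
  intro T r hT hr hrT hrα
  exact hb T r hT hr hrT (hrα.trans (Real.rpow_le_rpow_of_exponent_le hT (by linarith)))

/-- the trivial range -/
theorem trivial_range (ℓ : ℕ) [Fact ℓ.Prime] {f : ℕ → ℂ} (hf : ∀ s : ℝ, 1 < s →
    Summable fun r : {r : ℕ // Squarefree r} => ‖f r.1‖ ^ 4 / (r.1 : ℝ) * (r.1 : ℝ) ^ (-s)) {κ σ : ℝ} (hκ : 1 / 4 < κ)
    (α : ℤ_[ℓ]) : ∃ C : ℝ, Bounded ℓ f κ σ α C := by
  obtain ⟨C, hC⟩ := WindowsOfCoefficients.trivial_range (a := 0) (θ := 1) (u := fun m => (m : ℝ)) hf hκ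
  refine ⟨C, fun T r hT hr hrT _ => ?_⟩
  refine hC r r hr ?_
  rw [zero_mul, sub_zero, Real.rpow_one, abs_of_nonneg (Nat.cast_nonneg _)]

/-- **Theorem.** Let `P j` be a countable family of spaces of cusp forms of weight `3/2` (for example all
`S^{(1)}_{3/2}(24 p, χ)`) and `ℓ` a prime. (1) For `0 < κ ≤ 1/4` and `σ > 0`, for all `α ∈ ℤ_ℓ` outside of a set of dimension at
most `(1 - 4κ) / σ`, every form satisfies `|a_f(r)| ≤ C r^{1/4 + κ}` for all squarefree `r ≤ T` with `|r - α|_ℓ ≤ T^{-σ}`.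
(2) For `d > 0`, outside of one set of dimension at most `d` this holds for all `σ, κ > 0` with `κ > (1 - d σ) / 4`
simultaneously. -/
theorem result {J : Type} [Countable J] (P : J → FormSpace) (ℓ : ℕ) [Fact ℓ.Prime] :
    (∀ κ : ℝ, 0 < κ → κ ≤ 1 / 4 → ∀ σ : ℝ, 0 < σ → ∃ E : Set ℤ_[ℓ], dimH E ≤ ENNReal.ofReal ((1 - 4 * κ) / σ) ∧
      ∀ α ∉ E, ∀ (j : J), ∀ f ∈ (P j).V, ∃ C : ℝ, Bounded ℓ f κ σ α C) ∧
    ∀ d : ℝ, 0 < d → ∃ E : Set ℤ_[ℓ], dimH E ≤ ENNReal.ofReal d ∧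
      ∀ α ∉ E, ∀ (j : J), ∀ f ∈ (P j).V, ∀ σ : ℝ, 0 < σ → ∀ κ : ℝ, 0 < κ → (1 - d * σ) / 4 < κ →
        ∃ C : ℝ, Bounded ℓ f κ σ α C := by
  have h1 : ∀ κ : ℝ, 0 < κ → κ ≤ 1 / 4 → ∀ σ : ℝ, 0 < σ → ∃ E : Set ℤ_[ℓ],
      dimH E ≤ ENNReal.ofReal ((1 - 4 * κ) / σ) ∧
      ∀ α ∉ E, ∀ (j : J), ∀ f ∈ (P j).V, ∃ C : ℝ, Bounded ℓ f κ σ α C := by
    intro κ hκ hκ1 σ hσ
    choose E hE1 hE2 using fun j => space ℓ (P j) hσ hκ hκ1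
    refine ⟨⋃ j, E j, ?_, fun α hα j => hE2 j α fun h => hα (Set.mem_iUnion.2 ⟨j, h⟩)⟩
    rw [dimH_iUnion]
    exact iSup_le hE1
  refine ⟨h1, fun d hd => ?_⟩
  have hq : ∀ q : ℚ × ℚ, ∃ E : Set ℤ_[ℓ], dimH E ≤ ENNReal.ofReal d ∧
      (0 < (q.1 : ℝ) → 0 < (q.2 : ℝ) → (q.2 : ℝ) ≤ 1 / 4 → 1 - 4 * (q.2 : ℝ) ≤ d * q.1 →
        ∀ α ∉ E, ∀ (j : J), ∀ f ∈ (P j).V, ∃ C : ℝ, Bounded ℓ f q.2 q.1 α C) := by
    intro q
    by_cases hc : 0 < (q.1 : ℝ) ∧ 0 < (q.2 : ℝ) ∧ (q.2 : ℝ) ≤ 1 / 4 ∧ 1 - 4 * (q.2 : ℝ) ≤ d * q.1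
    · obtain ⟨g1, g2, g3, g4⟩ := hc
      obtain ⟨E, e1, e2⟩ := h1 q.2 g2 g3 q.1 g1
      refine ⟨E, e1.trans (ENNReal.ofReal_le_ofReal ?_), fun _ _ _ _ => e2⟩
      rw [div_le_iff₀ g1]
      exact g4
    · refine ⟨∅, by simp, fun g1 g2 g3 g4 => absurd ⟨g1, g2, g3, g4⟩ hc⟩
  choose E hE1 hE2 using hq
  refine ⟨⋃ q, E q, ?_, fun α hα j f hf σ hσ κ hκ hκσ => ?_⟩
  · rw [dimH_iUnion]
    exact iSup_le hE1
  have hα' : ∀ q, α ∉ E q := fun q h => hα (Set.mem_iUnion.2 ⟨q, h⟩)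
  rcases lt_or_ge (1 / 4) κ with hκ1 | hκ1
  · exact trivial_range ℓ ((P j).fourthMoment f hf) hκ1 α
  · have hgap : 0 < d * σ - (1 - 4 * κ) := by linarith
    set g : ℝ := d * σ - (1 - 4 * κ) with hg
    obtain ⟨q1, a1, a2⟩ := exists_rat_btwn (show max 0 (σ - g / (2 * d)) < σ from
      max_lt hσ (by
        have : 0 < g / (2 * d) := by positivity
        linarith))
    obtain ⟨q2, b1, b2⟩ := exists_rat_btwn (show max 0 (κ - g / 8) < κ from max_lt hκ (by linarith))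
    have c1 : (0 : ℝ) < q1 := (le_max_left _ _).trans_lt a1
    have c2 : (0 : ℝ) < q2 := (le_max_left _ _).trans_lt b1
    have c3 : σ - g / (2 * d) < q1 := (le_max_right _ _).trans_lt a1
    have c4 : κ - g / 8 < q2 := (le_max_right _ _).trans_lt b1
    have c5 : d * σ - g / 2 < d * q1 := by
      have h := mul_lt_mul_of_pos_left c3 hd
      have e : d * (σ - g / (2 * d)) = d * σ - g / 2 := by
        field_simp
      linarith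
    obtain ⟨C, hC⟩ := hE2 (q1, q2) c1 c2 (by linarith) (by
      show 1 - 4 * (q2 : ℝ) ≤ d * q1
      linarith) α (hα' _) j f hf
    exact ⟨|C|, (hC.mono b2.le).mono_sigma a2.le⟩

end Pool.Agent.Results.MP_af11aa_nt.IndicesInResidueClasses
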