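import Mathlib
import Pool.Agent.Results.MP_af11aa_nt.WindowsOfCoefficients
import Pool.Agent.V11001.KM.Near

/-!
# Cusp forms of weight `3/2`: the Ramanujan bound for all squarefree indices near the powers of almost every real number

Let `ν n / log n → ∞`, for example `ν n = n`, and let `U` be a countable set of real numbers. For all real `z > 1` outside a
set of Hausdorff dimension at most `(1 - 4κ) / (1 - θ)`, all `p`, `χ`, `f ∈ S^{(1)}_{3/2}(24 p, χ)` and `b > 0` in `U` there is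
`C` with `|a_f(r)| ≤ C r^{1/4 + κ}` for ALL squarefree `r` with `|r - b z ^ (ν n)| ≤ z ^ (θ ν n)` for some `n`. For almost
all `z > 1` this holds for all `θ` and all `κ > max 0 (θ / 4)`; for `θ ≤ 0` it is the bound of Q1, with every `ε > 0`, for
all squarefree `r` at a bounded distance from some `b z ^ (ν n)`. The spaces are those of `WindowsOfCoefficients`.
-/

set_option autoImplicit false

open Filter MeasureTheory

namespace Pool.Agent.Results.MP_af11aa_nt.IndicesNearPowers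

open Pool.Agent.V11001.KM
open Pool.Agent.Results.MP_af11aa_nt.WindowsOfCoefficients

/-- `|f(r)| ≤ C r^{1/4 + κ}` for all squarefree `r` with `|r - b z ^ (ν n)| ≤ z ^ (θ ν n)` for some `n` -/
def BoundedNear (f : ℕ → ℂ) (κ : ℝ) (ν : ℕ → ℝ) (θ b z C : ℝ) : Prop :=
  ∀ r : ℕ, Squarefree r → Near ν θ b z r → ‖f r‖ ≤ C * (r : ℝ) ^ (1 / 4 + κ)

theorem BoundedNear.mono {f : ℕ → ℂ} {κ κ' : ℝ} {ν : ℕ → ℝ} {θ b z C : ℝ} (h : κ ≤ κ')
    (hb : BoundedNear f κ ν θ b z C) : BoundedNear f κ' ν θ b z |C| := by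
  intro r hr hn
  have hr1 := one_le_of_sqf hr
  have h1 : (r : ℝ) ^ (1 / 4 + κ) ≤ (r : ℝ) ^ (1 / 4 + κ') := Real.rpow_le_rpow_of_exponent_le hr1 (by linarith)
  have h2 : 0 ≤ (r : ℝ) ^ (1 / 4 + κ) := by positivity
  calc ‖f r‖ ≤ C * (r : ℝ) ^ (1 / 4 + κ) := hb r hr hn
    _ ≤ |C| * (r : ℝ) ^ (1 / 4 + κ) := mul_le_mul_of_nonneg_right (le_abs_self C) h2
    _ ≤ |C| * (r : ℝ) ^ (1 / 4 + κ') := mul_le_mul_of_nonneg_left h1 (abs_nonneg C)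

/-- a basis, for a space -/
noncomputable def bas (P : FormSpace) : Module.Basis (Fin (Module.finrank ℂ P.V)) ℂ P.V :=
  have := P.finite
  Module.finBasis ℂ P.V

/-- the large coefficients of the `i`-th basis form of the `j`-th space -/
def Fam {J : Type} (P : J → FormSpace) (κ : ℝ) (q : Σ j, Fin (Module.finrank ℂ (P j).V)) : Set ℕ :=
  Large ((bas (P q.1) q.2 : (P q.1).V) : ℕ → ℂ) κ

theorem fam_count {J : Type} (P : J → FormSpace) {κ : ℝ} (hκ1 : κ ≤ 1 / 4) (q : Σ j, Fin (Module.finrank ℂ (P j).V))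
    (ε : ℝ) (hε : 0 < ε) :
    ∃ C : ℝ, ∀ X : ℝ, 1 ≤ X → {r : ℕ | r ∈ Fam P κ q ∧ (r : ℝ) ≤ X}.Finite ∧
      ({r : ℕ | r ∈ Fam P κ q ∧ (r : ℝ) ≤ X}.ncard : ℝ) ≤ C * X ^ (1 - 4 * κ + ε) :=
  count ((P q.1).fourthMoment (bas (P q.1) q.2) (bas (P q.1) q.2).2) hκ1 ε hε

/-- the bound for one basis form -/
theorem bounded_one {f : ℕ → ℂ} {κ : ℝ} (hκ : 0 < κ) {ν : ℕ → ℝ} {θ b z : ℝ}
    (h : ∃ H₀ : ℝ, ∀ t ∈ Large f κ, Near ν θ b z ((t : ℕ) : ℝ) → ((t : ℕ) : ℝ) < H₀) :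
    ∃ C : ℝ, 0 ≤ C ∧ BoundedNear f κ ν θ b z C := by
  classical
  obtain ⟨H₀, hH⟩ := h
  have h0 : 0 ≤ ∑ r ∈ Finset.range (⌊H₀⌋₊ + 1), ‖f r‖ := Finset.sum_nonneg fun r _ => norm_nonneg _
  refine ⟨1 + ∑ r ∈ Finset.range (⌊H₀⌋₊ + 1), ‖f r‖, by linarith, fun r hr hn => ?_⟩
  have hr1 := one_le_of_sqf hr
  have hpow : 1 ≤ (r : ℝ) ^ (1 / 4 + κ) := Real.one_le_rpow hr1 (by linarith)
  by_cases hm : r ∈ Large f κ
  · have h5 : r ∈ Finset.range (⌊H₀⌋₊ + 1) := by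
      rw [Finset.mem_range, Nat.lt_succ_iff]
      exact Nat.le_floor (hH r hm hn).le
    have h6 : ‖f r‖ ≤ ∑ r ∈ Finset.range (⌊H₀⌋₊ + 1), ‖f r‖ :=
      Finset.single_le_sum (f := fun r => ‖f r‖) (fun r _ => norm_nonneg _) h5
    nlinarith
  · have h4 : ‖f r‖ < (r : ℝ) ^ (1 / 4 + κ) := by
      by_contra h5
      exact hm ⟨hr, not_lt.1 h5⟩
    nlinarith

/-- the bound for all forms of a space -/
theorem bounded_all {J : Type} (P : J → FormSpace) {κ : ℝ} (hκ : 0 < κ) {ν : ℕ → ℝ} {θ b z : ℝ}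
    (h : ∀ q : Σ j, Fin (Module.finrank ℂ (P j).V),
      ∃ H₀ : ℝ, ∀ t ∈ Fam P κ q, Near ν θ b z ((t : ℕ) : ℝ) → ((t : ℕ) : ℝ) < H₀)
    (j : J) (f : ℕ → ℂ) (hf : f ∈ (P j).V) : ∃ C : ℝ, BoundedNear f κ ν θ b z C := by
  classical
  choose C hC0 hC using fun i => bounded_one hκ (h ⟨j, i⟩)
  refine ⟨∑ i, ‖(bas (P j)).repr ⟨f, hf⟩ i‖ * C i, fun r hr hrm => ?_⟩
  have h1 := congrArg (fun g : (P j).V => (g : ℕ → ℂ) r) ((bas (P j)).sum_repr ⟨f, hf⟩)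
  simp only [Submodule.coe_sum, Submodule.coe_smul, Finset.sum_apply, Pi.smul_apply, smul_eq_mul] at h1
  rw [← h1, Finset.sum_mul]
  refine norm_sum_le_of_le _ fun i _ => ?_
  rw [norm_mul, mul_assoc]
  exact mul_le_mul_of_nonneg_left (hC i r hr hrm) (norm_nonneg _)

/-- the trivial range -/
theorem trivial_near {f : ℕ → ℂ} (hf : ∀ s : ℝ, 1 < s → Summable fun r : {r : ℕ // Squarefree r} =>
    ‖f r.1‖ ^ 4 / (r.1 : ℝ) * (r.1 : ℝ) ^ (-s)) {κ : ℝ} {ν : ℕ → ℝ} {θ b z : ℝ} (hκ : 1 / 4 < κ) :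
    ∃ C : ℝ, BoundedNear f κ ν θ b z C := by
  obtain ⟨C, hC⟩ := trivial_range (a := 1) (θ := 0) (u := fun m : ℕ => (m : ℝ)) hf hκ
  refine ⟨C, fun r hr _ => hC r r hr ?_⟩
  simp

/-- **Theorem.** Let `P j` be a countable family of spaces of cusp forms of weight `3/2` (for example all
`S^{(1)}_{3/2}(24 p, χ)`), `ν n / log n → ∞`, and `U` a countable set of real numbers. (1) Let `0 < κ ≤ 1/4`, `θ < 1`. For all
`z > 1` outside a set of Hausdorff dimension at most `(1 - 4κ) / (1 - θ)`, all `b > 0` in `U`, all `j` and `f` in the `j`-th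
space there is `C` with `|a_f(r)| ≤ C r^{1/4 + κ}` for ALL squarefree `r` with `|r - b z ^ (ν n)| ≤ z ^ (θ ν n)` for some
`n`. (2) For almost all `z > 1` this holds for all `θ` and all `κ > 0` with `κ > θ / 4`, simultaneously. -/
theorem result {J : Type} [Countable J] (P : J → FormSpace) (ν : ℕ → ℝ) (hν : Fast ν) (U : Set ℝ) (hU : U.Countable) :
    (∀ κ θ : ℝ, 0 < κ → κ ≤ 1 / 4 → θ < 1 → ∃ E : Set ℝ, dimH E ≤ ENNReal.ofReal ((1 - 4 * κ) / (1 - θ)) ∧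
      ∀ z : ℝ, 1 < z → z ∉ E → ∀ b ∈ U, 0 < b → ∀ (j : J), ∀ f ∈ (P j).V, ∃ C : ℝ, BoundedNear f κ ν θ b z C) ∧
    ∀ᵐ z : ℝ, 1 < z → ∀ θ κ : ℝ, 0 < κ → θ / 4 < κ → ∀ b ∈ U, 0 < b → ∀ (j : J), ∀ f ∈ (P j).V,
      ∃ C : ℝ, BoundedNear f κ ν θ b z C := by
  refine ⟨fun κ θ hκ hκ1 hθ => ?_, ?_⟩
  · obtain ⟨E, h1, h2⟩ := family_threshold (fun r : ℕ => (r : ℝ)) hν (s := 1 - 4 * κ) (by linarith) hθ U hU (Fam P κ)
      (fun q ε hε => fam_count P hκ1 q ε hε)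
    exact ⟨E, h1, fun z hz hzE b hb hb0 j f hf => bounded_all P hκ (h2 z hz hzE b hb hb0) j f hf⟩
  · have hq : ∀ q : {q : ℚ // 0 < (q : ℝ) ∧ (q : ℝ) ≤ 1 / 4}, ∀ᵐ z : ℝ, 1 < z → ∀ θ : ℝ, θ < 1 - (1 - 4 * (q.1 : ℝ)) →
        ∀ b ∈ U, 0 < b → ∀ i : Σ j, Fin (Module.finrank ℂ (P j).V), ∃ H₀ : ℝ, ∀ t ∈ Fam P q.1 i,
          Near ν θ b z ((t : ℕ) : ℝ) → ((t : ℕ) : ℝ) < H₀ := fun q =>
      ae_family_threshold (fun r : ℕ => (r : ℝ)) hν (s := 1 - 4 * (q.1 : ℝ)) (by linarith [q.2.2]) U hU (Fam P q.1)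
        (fun i ε hε => fam_count P q.2.2 i ε hε)
    rw [← ae_all_iff] at hq
    filter_upwards [hq] with z hz hz1 θ κ hκ hθ b hb hb0 j f hf
    rcases lt_or_ge (1 / 4) κ with hκ1 | hκ1
    · exact trivial_near ((P j).fourthMoment f hf) hκ1
    · obtain ⟨q, hq1, hq2⟩ := exists_rat_btwn (show max 0 (θ / 4) < κ from max_lt hκ hθ)
      have hq0 : 0 < (q : ℝ) := (le_max_left _ _).trans_lt hq1
      have hq3 : θ / 4 < q := (le_max_right _ _).trans_lt hq1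
      obtain ⟨C, hC⟩ := bounded_all P hq0 (hz ⟨q, hq0, by linarith⟩ hz1 θ (by simp only; linarith) b hb hb0) j f hf
      exact ⟨|C|, hC.mono hq2.le⟩

end Pool.Agent.Results.MP_af11aa_nt.IndicesNearPowers
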